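import Pool.Agent.H39.Newt3.Base

/-! # Project NEWTON3, module KLD -/

set_option autoImplicit false

namespace Pool.Newt3

open MvPolynomial Pool.Agent.H39.MonoR Pool.Agent.H75.Mono Pool.Newt Pool.Newt2

theorem sKld : SKld := by
  intro σ I _ _ a Wf Q δ hδ hW hQ c
  refine ⟨c * (∑ i, (δ i).natAbs) + 1, ?_⟩
  intro u N hN hu hu0 hlow hup
  have h1 : ∑ i, δ i * (∑ l, u l * (a i l : ℤ)) ≤ 0 := by
    have e : ∑ i, δ i * (∑ l, u l * (a i l : ℤ)) = ∑ l, u l * (∑ i, δ i * (a i l : ℤ)) := by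
      simp only [Finset.mul_sum]
      rw [Finset.sum_comm]
      refine Finset.sum_congr rfl fun l _ => Finset.sum_congr rfl fun i _ => ?_
      ring
    rw [e]
    refine Finset.sum_nonpos fun l _ => ?_
    by_cases hl : l ∈ Wf
    · exact mul_nonpos_of_nonneg_of_nonpos (hu l) (hW l hl)
    · rw [hu0 l hl, zero_mul]
  have key : ∀ (d v : ℤ), -(c : ℤ) ≤ v → (v ≤ c ∨ 0 ≤ d) → -(c : ℤ) * (d.natAbs : ℤ) ≤ d * v := by
    intro d v hv h
    rw [Int.natCast_natAbs]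
    rcases h with h | h
    · rcases abs_cases d with ⟨h1, h2⟩ | ⟨h1, h2⟩ <;> rw [h1] <;> nlinarith
    · rw [abs_of_nonneg h]
      nlinarith
  have h2 : ∀ i, -(c : ℤ) * ((δ i).natAbs : ℤ) ≤ δ i * ((∑ l, u l * (a i l : ℤ)) - N) := by
    intro i
    refine key _ _ (hlow i) ?_
    by_cases hi : i ∈ Q
    · exact Or.inl (hup i hi)
    · exact Or.inr (hQ i hi)
  have h3 : ∑ i, -(c : ℤ) * ((δ i).natAbs : ℤ) ≤
      ∑ i, δ i * ((∑ l, u l * (a i l : ℤ)) - N) := Finset.sum_le_sum fun i _ => h2 i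
  have h4 : ∑ i, δ i * ((∑ l, u l * (a i l : ℤ)) - N) =
      ∑ i, δ i * (∑ l, u l * (a i l : ℤ)) - (∑ i, δ i) * N := by
    rw [Finset.sum_mul, ← Finset.sum_sub_distrib]
    refine Finset.sum_congr rfl fun i _ => ?_
    ring
  rw [h4, ← Finset.mul_sum] at h3
  have h7 : ∑ i, ((δ i).natAbs : ℤ) = ((∑ i, (δ i).natAbs : ℕ) : ℤ) := by
    rw [Nat.cast_sum]
  rw [h7] at h3
  have h5 : (N : ℤ) ≤ (∑ i, δ i) * N := by nlinarith
  have h6 : ((c * (∑ i, (δ i).natAbs) + 1 : ℕ) : ℤ) ≤ N := by exact_mod_cast hN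
  rw [Nat.cast_add, Nat.cast_mul, Nat.cast_one] at h6
  linarith

end Pool.Newt3
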